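import Pool.Agent.Lib.MP_253cbc_nt.H60Main

open Filter Polynomial

namespace Pool.Agent.Results.MP_253cbc_nt.BatemanHorn

/-- There is a family of polynomials satisfying the hypotheses of the Bateman-Horn conjecture such
that `x ^ δ` simultaneous prime values below `x`, for infinitely many `x`, refute the bound
`F n < n ^ (ε / ln ln n)`. -/
theorem result :
    ∃ (k : ℕ) (f : Fin k → ℤ[X]), Function.Injective f ∧ (∀ i, Irreducible (f i)) ∧
      (∀ i, 0 < (f i).leadingCoeff) ∧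
      (∀ p : ℕ, p.Prime → ∃ t : ℤ, ¬(p : ℤ) ∣ ∏ i, (f i).eval t) ∧
      ∀ δ : ℝ, 0 < δ → (∃ᶠ x : ℕ in atTop,
          (x : ℝ) ^ δ ≤ {t : ℕ | t < x ∧ ∀ i, Prime ((f i).eval (t : ℤ))}.ncard) →
        ¬(∀ ε : ℝ, 0 < ε → ∃ N : ℕ, ∀ n : ℕ, N ≤ n →
          (((Finset.range (n + 1)).filter
              (fun x => x * ArithmeticFunction.sigma 1 x = n)).card : ℝ)
            < (n : ℝ) ^ (ε / Real.log (Real.log (n : ℝ)))) := by
  obtain ⟨k, f, h1, h2, h3, h4, K, C, hK, hC, h⟩ := Lib.MP_253cbc_nt.H60.family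
  exact ⟨k, f, h1, h2, h3, h4, fun δ hδ hc => Lib.MP_253cbc_nt.H60.not_small hK hC h hδ hc⟩

end Pool.Agent.Results.MP_253cbc_nt.BatemanHorn
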