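import Pool.Agent.Lib.MP_253cbc_nt.Chain

open Filter Topology

namespace Pool.Agent.Results.MP_253cbc_nt.ChainBound

/-- The number of solutions of x σ(x) = n is below n ^ (c / ln ln n) for every
c > ln (1 + √2 / 2) / 2 = 0.2674 and all large n. -/
theorem result :
    ∀ c : ℝ, Real.log (1 + √2 / 2) / 2 < c → ∃ N : ℕ, ∀ n : ℕ, N ≤ n →
      (((Finset.range (n + 1)).filter
          (fun x => x * ArithmeticFunction.sigma 1 x = n)).card : ℝ)
        < (n : ℝ) ^ (c / Real.log (Real.log (n : ℝ))) := by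
  intro c hc
  have hl2 : 1 / 2 < Real.log 2 := by linarith [Real.log_two_gt_d9]
  have hl2' : Real.log 2 < 1 := by linarith [Real.log_two_lt_d9]
  have r2 : √2 ^ 2 = 2 := Real.sq_sqrt two_pos.le
  have r1 : 1.41 < √2 := Real.lt_sqrt_of_sq_lt (by norm_num)
  have r3 : √2 < 1.42 := (Real.sqrt_lt' (by norm_num)).2 (by norm_num)
  obtain ⟨α, a0, a2⟩ : ∃ α : ℝ, 0 < α ∧ α ^ 2 = √2 - 1 :=
    ⟨√(√2 - 1), Real.sqrt_pos.2 (by linarith), Real.sq_sqrt (by linarith)⟩
  have a3 : α * (√2 * α) = 2 - √2 := by linear_combination √2 * a2 + r2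
  have a4 : (√2 * α) ^ 2 = 2 * √2 - 2 := by linear_combination √2 ^ 2 * a2 + (√2 - 1) * r2
  have a5 : √2 * α ≤ 0.92 := le_of_sq_le_sq (by rw [a4]; linarith) (by norm_num)
  have a9 : α ≤ √2 * α := le_mul_of_one_le_left a0.le (by linarith)
  have a10 : (√2 * α) ^ 2 + α ^ 4 ≤ 1 := le_of_eq (by
    linear_combination a4 + (α ^ 2 + √2 - 1) * a2 + r2)
  have a6 : α ^ 6 ≤ 0.08 := by
    rw [show α ^ 6 = (α ^ 2) ^ 3 by ring, a2]
    exact (pow_le_pow_left₀ (by linarith) (by linarith : √2 - 1 ≤ 0.42) 3).trans (by norm_num)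
  obtain ⟨c0, hc0, c00⟩ : ∃ c0, c0 = Real.log (1 + √2 / 2) / 2 ∧ 0 < c0 :=
    ⟨_, rfl, half_pos (Real.log_pos (by linarith))⟩
  rw [← hc0] at hc
  obtain ⟨ε, hε, hε0⟩ : ∃ ε, ε = (c - c0) / 3 ∧ 0 < ε := ⟨_, rfl, by linarith⟩
  obtain ⟨t, ht, ht', ht1⟩ : ∃ t, c0 / (c0 + ε) ≤ t ∧ 32 / 33 ≤ t ∧ t < 1 :=
    ⟨max (c0 / (c0 + ε)) (32 / 33), le_max_left _ _, le_max_right _ _,
      max_lt (by rw [div_lt_one (by positivity)]; linarith) (by norm_num)⟩
  have ht0 : 0 < t := by linarith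
  obtain ⟨η, hη, hη0⟩ : ∃ η, η = (1 - t) / 3 ∧ 0 < η := ⟨_, rfl, by linarith⟩
  have hL : Tendsto (fun n : ℕ => Real.log n) atTop atTop :=
    Real.tendsto_log_atTop.comp tendsto_natCast_atTop_atTop
  obtain ⟨N, hN⟩ := eventually_atTop.1 ((hL.eventually (eventually_gt_atTop 1)).and
    ((((tendsto_rpow_atTop ht0).comp hL).eventually (eventually_ge_atTop 2)).and
    ((((tendsto_rpow_atTop hη0).comp hL).eventually (eventually_gt_atTop (6 / (η ^ 2 * ε)))).and
    (((Real.tendsto_log_atTop.comp hL).eventually (eventually_gt_atTop 33)).and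
    (hL.eventually (eventually_ge_atTop ((c0 + ε) / ε)))))))
  refine ⟨N + 1, fun n hn => ?_⟩
  obtain ⟨h1, h2, h3, g1, g2⟩ := hN n (by omega)
  dsimp only [Function.comp] at h2 h3 g1
  have hn0 : (0 : ℝ) < n := by exact_mod_cast (by omega : 0 < n)
  obtain ⟨L, hLdef⟩ : ∃ L, L = Real.log n := ⟨_, rfl⟩
  rw [← hLdef] at h1 h2 h3 g1 g2 ⊢
  have hL0 : 0 < L := by linarith
  have hLL : 0 < Real.log L := Real.log_pos h1
  obtain ⟨y, hy1, hy2⟩ : ∃ y : ℕ, L ^ t ≤ y ∧ (y : ℝ) + 1 ≤ 2 * L ^ t :=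
    ⟨⌈L ^ t⌉₊, Nat.le_ceil _, by linarith [Nat.ceil_lt_add_one (by linarith : 0 ≤ L ^ t)]⟩
  have hy : 2 ≤ y := by exact_mod_cast h2.trans hy1
  have hlogy : t * Real.log L ≤ Real.log y := by
    rw [← Real.log_rpow hL0]
    exact Real.log_le_log (by linarith) hy1
  have g3 : 32 < t * Real.log L := by linarith [mul_le_mul_of_nonneg_right ht' hLL.le]
  obtain ⟨K, k1, k2⟩ : ∃ K : ℕ, K * (2 * (t * Real.log L)) ≤ L + 1 ∧
      ∀ k, y ^ (2 * k) ≤ 2 * n → k ≤ K := by
    refine ⟨⌊(L + 1) / (2 * (t * Real.log L))⌋₊,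
      (le_div_iff₀ (by positivity)).1 (Nat.floor_le (by positivity)), fun k hk => ?_⟩
    refine Nat.le_floor ?_
    rw [le_div_iff₀ (by positivity)]
    have h5 : ((y : ℝ)) ^ (2 * k) ≤ 2 * n := by exact_mod_cast hk
    have h6 := Real.log_le_log (by positivity) h5
    rw [Real.log_pow, Real.log_mul two_ne_zero hn0.ne', ← hLdef] at h6
    push_cast at h6
    linarith [mul_le_mul_of_nonneg_left hlogy (Nat.cast_nonneg (α := ℝ) k)]
  obtain ⟨j, j1, j2⟩ : ∃ j : ℕ, (1 - t) * Real.log L ≤ j * Real.log 2 ∧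
      j * Real.log 2 ≤ (1 - t) * Real.log L + 1 := by
    refine ⟨⌈(1 - t) * Real.log L / Real.log 2⌉₊,
      (div_le_iff₀ (by linarith)).1 (Nat.le_ceil _), ?_⟩
    have := Nat.ceil_lt_add_one (a := (1 - t) * Real.log L / Real.log 2)
      (div_nonneg (mul_nonneg (by linarith) hLL.le) (by linarith))
    rw [← sub_lt_iff_lt_add, lt_div_iff₀ (by linarith)] at this
    linarith
  have h4 := Pool.Agent.Lib.MP_253cbc_nt.card_le' (α := α) (β := √2 * α) (n := n) (j := j) a0.le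
    a9 (by linarith) a10 (by linarith) (by omega) hy k2 (by
      have y0 : (0 : ℝ) < y := by positivity
      have b1 : L ≤ 2 ^ j * y := by
        rw [← Real.log_le_log_iff hL0 (by positivity), Real.log_mul (by positivity) y0.ne',
          Real.log_pow]
        linarith
      have b2 : (K : ℝ) / (2 ^ j * y) ≤ 1 / 4 := by
        rw [div_le_iff₀ (by positivity)]
        linarith [mul_le_mul_of_nonneg_left g3.le (Nat.cast_nonneg (α := ℝ) K)]
      have b3 : j * (4 * Real.log 2 / Real.log y) < 1 / 4 := by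
        rw [← mul_div_assoc, div_lt_iff₀ (by linarith)]
        linarith [mul_le_mul_of_nonneg_right ht' hLL.le]
      linarith)
    ((Finset.range (n + 1)).filter fun x => x * ArithmeticFunction.sigma 1 x = n)
    fun x hx => (Finset.mem_filter.1 hx).2
  have a7 : 0 < 2 - √2 := by linarith
  rw [a3, ← le_div_iff₀ (by positivity)] at h4
  refine lt_of_le_of_lt h4 ?_
  rw [Real.rpow_def_of_pos hn0, ← hLdef, ← Real.log_lt_iff_lt_exp (by positivity),
    Real.log_div (by positivity) (by positivity), Real.log_pow, Real.log_pow]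
  have a8 : Real.log (2 - √2) = -(2 * c0) := by
    rw [hc0, mul_div_cancel₀ _ two_ne_zero, ← Real.log_inv]
    congr 1
    exact eq_inv_of_mul_eq_one_left (by linear_combination -r2 / 2)
  have h5 : K * (2 * c0) ≤ L * ((c0 + 2 * ε) / Real.log L) := by
    rw [← mul_div_assoc, le_div_iff₀ hLL]
    rw [div_le_iff₀ (by positivity)] at ht
    rw [div_le_iff₀ hε0] at g2
    have b1 := mul_le_mul_of_nonneg_left ht (show 0 ≤ K * (2 * Real.log L) by positivity)
    have b2 := mul_le_mul_of_nonneg_right k1 (show 0 ≤ c0 + ε by positivity)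
    linarith
  have h7 : Real.log L ≤ L ^ η / η := Real.log_le_rpow_div hL0.le hη0
  have h8 : Real.log ((Nat.log 2 n : ℝ) + 1) ≤ 3 * (L ^ η / η) := by
    have h9 : (Nat.log 2 n : ℝ) + 1 ≤ 3 * L := by
      have h7 : ((2 : ℝ)) ^ Nat.log 2 n ≤ n := by exact_mod_cast Nat.pow_log_le_self 2 (by omega)
      have h8 := Real.log_le_log (by positivity) h7
      rw [Real.log_pow, ← hLdef] at h8
      linarith [mul_le_mul_of_nonneg_left hl2.le (Nat.cast_nonneg (α := ℝ) (Nat.log 2 n))]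
    refine (Real.log_le_log (by positivity) h9).trans
      ((Real.log_le_rpow_div (by positivity) hη0).trans ?_)
    rw [Real.mul_rpow (by norm_num) hL0.le, mul_div_assoc]
    refine mul_le_mul_of_nonneg_right ?_ (by positivity)
    simpa using Real.rpow_le_rpow_of_exponent_le (by norm_num : (1 : ℝ) ≤ 3) (by linarith : η ≤ 1)
  have h9 : L = L ^ t * L ^ η * L ^ η * L ^ η := by
    rw [← Real.rpow_add hL0, ← Real.rpow_add hL0, ← Real.rpow_add hL0,
      show t + η + η + η = 1 by rw [hη]; ring, Real.rpow_one]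
  have h10 : ((y : ℝ) + 1) * Real.log ((Nat.log 2 n : ℝ) + 1) < L * (ε / Real.log L) := by
    rw [← mul_div_assoc, lt_div_iff₀ hLL]
    have h11 : 0 ≤ Real.log ((Nat.log 2 n : ℝ) + 1) := Real.log_nonneg (by simp)
    rw [div_lt_iff₀ (by positivity)] at h3
    calc _ ≤ 2 * L ^ t * (3 * (L ^ η / η)) * (L ^ η / η) := by gcongr
      _ = L ^ t * L ^ η * L ^ η * 6 / η ^ 2 := by ring
      _ < L ^ t * L ^ η * L ^ η * (L ^ η * (η ^ 2 * ε)) / η ^ 2 := by gcongr
      _ = L ^ t * L ^ η * L ^ η * L ^ η * ε := by field_simp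
      _ = _ := by rw [← h9]
  have h11 : L * (c / Real.log L)
      = L * ((c0 + 2 * ε) / Real.log L) + L * (ε / Real.log L) := by
    rw [hε]; ring
  rw [a8]
  push_cast
  linarith

end Pool.Agent.Results.MP_253cbc_nt.ChainBound
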