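import Pool.Agent.Lib.MP_253cbc_nt.FF.Lower

/-!
The maximal order of the number of monic solutions of `x σ(x) = n` in `k[T]`, for every finite
field `k` of characteristic two with more than two elements.
-/

open Polynomial

theorem Pool.Agent.Results.MP_253cbc_nt.FunctionField.result :
    ∀ (k : Type) [Field k] [Fintype k] [CharP k 2], 2 < Fintype.card k → ∀ c : ℝ,
      (c < Real.log 2 / 2 → ∀ D : ℕ, ∃ n : k[X], n.Monic ∧ D ≤ n.natDegree ∧
        ((Fintype.card k : ℝ) ^ n.natDegree) ^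
            (c / Real.log (Real.log ((Fintype.card k : ℝ) ^ n.natDegree)))
          ≤ (Set.ncard {x : k[X] | x.Monic ∧
              x * ∑ᶠ d ∈ {d : k[X] | d.Monic ∧ d ∣ x}, d = n} : ℝ)) ∧
      (Real.log 2 / 2 < c → ∃ D : ℕ, ∀ n : k[X], n.Monic → D ≤ n.natDegree →
        (Set.ncard {x : k[X] | x.Monic ∧
            x * ∑ᶠ d ∈ {d : k[X] | d.Monic ∧ d ∣ x}, d = n} : ℝ)
          < ((Fintype.card k : ℝ) ^ n.natDegree) ^
            (c / Real.log (Real.log ((Fintype.card k : ℝ) ^ n.natDegree)))) :=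
  fun _ _ _ _ hk c => ⟨Pool.Agent.Lib.MP_253cbc_nt.FF.lower hk c,
    Pool.Agent.Lib.MP_253cbc_nt.FF.upper c⟩
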