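import Pool.Agent.Lib.MP_253cbc_nt.SixC

namespace Pool.Agent.Results.MP_253cbc_nt.SixthPowers

/-- The number of solutions of x σ(x) = n is at most (2 + ln n / (k ln ln n)) ^ (C k) for every
k that is at least 1 + v₂(n) + v₃(n) + v₅(n) + the number of primes p with p ^ 6 ∣ n. -/
theorem result :
    ∃ C : ℝ, ∀ n k : ℕ, 16 ≤ n →
      1 + n.factorization 2 + n.factorization 3 + n.factorization 5 +
          (n.primeFactors.filter (fun p => p ^ 6 ∣ n)).card ≤ k →
      (((Finset.range (n + 1)).filter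
          (fun x => x * ArithmeticFunction.sigma 1 x = n)).card : ℝ)
        ≤ (2 + Real.log (n : ℝ) / ((k : ℝ) * Real.log (Real.log (n : ℝ)))) ^ (C * (k : ℝ)) := by
  obtain ⟨C, hC⟩ := Pool.Agent.Lib.MP_253cbc_nt.Six.main
  refine ⟨C, fun n k hn hk => hC n k hn ?_ _ fun x hx => (Finset.mem_filter.1 hx).2⟩
  have h : n.primeFactors.filter (fun p => 6 ≤ n.factorization p) =
      n.primeFactors.filter (fun p => p ^ 6 ∣ n) :=
    Finset.filter_congr fun p hp =>
      ((Nat.prime_of_mem_primeFactors hp).pow_dvd_iff_le_factorization (by omega)).symm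
  rw [h, Pool.Agent.Lib.MP_253cbc_nt.Six.tt]
  omega

end Pool.Agent.Results.MP_253cbc_nt.SixthPowers
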